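import Pool.Agent.N601.LL.Pt
import Pool.Agent.Y736.HG7

set_option autoImplicit false

/-! # Double means, for circles about arbitrary centres -/

namespace Pool.Agent.N601.LL

open Complex Metric Set Filter Topology MeasureTheory Pool.Agent.H712R2 Pool.Agent.H713R2
open N62a1eb23 Pool.Agent.Y736.HD
open Real (posLog circleAverage)

variable {d : ℕ} {β : ℂ → ℂ}

/-- the mean over the circle about `c`, as a function of the angle -/
noncomputable def QQ (β : ℂ → ℂ) (c : ℂ) (ρ : ℝ) (x : ℂ) : ℝ :=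
  Real.log ‖x‖ + LM ρ ‖c - x⁻¹ * β x‖

theorem mean_q (c : ℂ) {x : ℂ} (hx : x ≠ 0) {ρ : ℝ} (hρ : 0 < ρ) :
    circleAverage (fun z => Real.log ‖β x - z * x‖) c ρ = QQ β c ρ x := by
  rw [mean_z x c hx hρ, LM_eq hρ (norm_nonneg _)]
  rfl

theorem QQ_cont (hβ : IsBeta d β) (c : ℂ) {ρ : ℝ} (hρ : 0 < ρ) {s : ℝ}
    (hs0 : 0 < s) (hs1 : s < 1) : ContinuousOn (QQ β c ρ) (sphere 0 |s|) := by
  unfold QQ
  apply ContinuousOn.add
  · apply ContinuousOn.log continuousOn_id.norm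
    intro x hx
    exact (norm_pos_iff.2 (circ_ne hs0 hx)).ne'
  · apply (LM_cont hρ).comp_continuousOn
    apply ContinuousOn.norm
    apply ContinuousOn.sub continuousOn_const
    apply ContinuousOn.mul
    · exact continuousOn_id.inv₀ fun x hx => circ_ne hs0 hx
    · exact hβ.diff.continuousOn.mono fun x hx => by
        rw [mem_ball_zero_iff]
        exact circ_lt hs0 hs1 hx

theorem QQ_int (hβ : IsBeta d β) (c : ℂ) {ρ : ℝ} (hρ : 0 < ρ) {s : ℝ}
    (hs0 : 0 < s) (hs1 : s < 1) : CircleIntegrable (QQ β c ρ) 0 s :=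
  (QQ_cont hβ c hρ hs0 hs1).circleIntegrable'

/-- the exchange of the two means -/
theorem fub (hβ : IsBeta d β) (c : ℂ) {ρ s : ℝ} (hρ : 0 < ρ)
    (hs0 : 0 < s) (hs1 : s < 1) : circleAverage (QQ β c ρ) 0 s ≤ CC c ρ ∧
    ∫⁻ φ, ENNReal.ofReal (CC c ρ - VV β s (circleMap c ρ φ)) ∂cm =
      ENNReal.ofReal (CC c ρ - circleAverage (QQ β c ρ) 0 s) := by
  obtain ⟨C, hC⟩ : ∃ C, C = CC c ρ := ⟨_, rfl⟩
  rw [← hC]
  have hmem : ∀ θ, circleMap (0 : ℂ) s θ ∈ sphere (0 : ℂ) |s| := fun θ =>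
    circleMap_mem_sphere' 0 s θ
  have hx0 : ∀ θ, circleMap (0 : ℂ) s θ ≠ 0 := fun θ => circ_ne hs0 (hmem θ)
  have hx1 : ∀ θ, ‖circleMap (0 : ℂ) s θ‖ < 1 := fun θ => circ_lt hs0 hs1 (hmem θ)
  have hz : ∀ φ, ‖circleMap c ρ φ - c‖ ≤ ρ := by
    intro φ
    have := circleMap_mem_sphere c hρ.le φ
    rw [mem_sphere, dist_eq_norm] at this
    exact this.le
  have hK : ∀ θ φ, Real.log ‖β (circleMap 0 s θ) - circleMap c ρ φ * circleMap 0 s θ‖ ≤ C := by
    intro θ φ
    rw [hC]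
    exact kernel_le hβ hρ (hx1 θ) (hz φ)
  have hg : ∀ θ, circleAverage (fun z => Real.log ‖β (circleMap 0 s θ) - z * circleMap 0 s θ‖)
      c ρ = QQ β c ρ (circleMap 0 s θ) := fun θ => mean_q c (hx0 θ) hρ
  have hgC : ∀ θ, QQ β c ρ (circleMap 0 s θ) ≤ C := by
    intro θ
    rw [← hg θ, avg_eq]
    exact integral_le (integrable_of (Kz_int _ _ _)) (hK θ)
  have hgi : Integrable (fun θ => QQ β c ρ (circleMap 0 s θ)) cm :=
    integrable_of (QQ_int hβ c hρ hs0 hs1)
  have hgint : ∫ θ, QQ β c ρ (circleMap 0 s θ) ∂cm = circleAverage (QQ β c ρ) 0 s := by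
    rw [← avg_eq (QQ β c ρ) 0 s]
  refine ⟨?_, ?_⟩
  · rw [← hgint]
    exact integral_le hgi hgC
  have hmeas : Measurable (fun p : ℝ × ℝ => ENNReal.ofReal (C -
      Real.log ‖β (circleMap 0 s p.1) - circleMap c ρ p.2 * circleMap 0 s p.1‖)) := by
    have hb : Continuous fun θ => β (circleMap 0 s θ) := by
      apply hβ.diff.continuousOn.comp_continuous (continuous_circleMap 0 s)
      intro θ
      rw [mem_ball_zero_iff]
      exact hx1 θ
    have h1 : Continuous fun p : ℝ × ℝ =>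
        ‖β (circleMap 0 s p.1) - circleMap c ρ p.2 * circleMap 0 s p.1‖ := by
      apply Continuous.norm
      apply Continuous.sub (hb.comp continuous_fst)
      exact ((continuous_circleMap c ρ).comp continuous_snd).mul
        ((continuous_circleMap 0 s).comp continuous_fst)
    exact ENNReal.measurable_ofReal.comp (measurable_const.sub
      (Real.measurable_log.comp h1.measurable))
  have hswap := lintegral_lintegral_swap (μ := cm) (ν := cm) (f := fun θ φ => ENNReal.ofReal (C -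
      Real.log ‖β (circleMap 0 s θ) - circleMap c ρ φ * circleMap 0 s θ‖)) hmeas.aemeasurable
  have hL : ∀ θ, ∫⁻ φ, ENNReal.ofReal (C -
      Real.log ‖β (circleMap 0 s θ) - circleMap c ρ φ * circleMap 0 s θ‖) ∂cm =
      ENNReal.ofReal (C - QQ β c ρ (circleMap 0 s θ)) := by
    intro θ
    rw [lint (integrable_of (f := fun z => Real.log ‖β (circleMap 0 s θ) - z * circleMap 0 s θ‖)
      (Kz_int _ _ _)) (hK θ), ← avg_eq
      (fun z => Real.log ‖β (circleMap 0 s θ) - z * circleMap 0 s θ‖), hg θ]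
  have hR : ∀ φ, ∫⁻ θ, ENNReal.ofReal (C -
      Real.log ‖β (circleMap 0 s θ) - circleMap c ρ φ * circleMap 0 s θ‖) ∂cm =
      ENNReal.ofReal (C - VV β s (circleMap c ρ φ)) := by
    intro φ
    rw [lint (integrable_of (f := fun x => Real.log ‖β x - circleMap c ρ φ * x‖)
      (K_int hβ _ hs0 hs1)) (fun θ => hK θ φ), ← avg_eq
      (fun x => Real.log ‖β x - circleMap c ρ φ * x‖)]
    rfl
  simp only [hL, hR] at hswap
  rw [← hswap, lint hgi hgC, hgint]

theorem ofReal_int_le {f : ℝ → ℝ} (hf : Integrable f cm) :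
    ENNReal.ofReal (∫ φ, f φ ∂cm) ≤ ∫⁻ φ, ENNReal.ofReal (f φ) ∂cm := by
  have h1 : ∫ φ, f φ ∂cm ≤ ∫ φ, max (f φ) 0 ∂cm :=
    integral_mono hf hf.pos_part (fun φ => le_max_left _ _)
  refine (ENNReal.ofReal_le_ofReal h1).trans ?_
  rw [ofReal_integral_eq_lintegral_ofReal hf.pos_part
    (Eventually.of_forall fun φ => le_max_right _ _)]
  apply lintegral_mono
  intro φ
  apply le_of_eq
  show ENNReal.ofReal (max (f φ) 0) = ENNReal.ofReal (f φ)
  rcases le_total (f φ) 0 with h | h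
  · rw [max_eq_right h, ENNReal.ofReal_zero, ENNReal.ofReal_of_nonpos h]
  · rw [max_eq_left h]

/-- lower bound -/
theorem lower_q (hβ : IsBeta d β) (c : ℂ) {ρ s : ℝ} (hρ : 0 < ρ)
    (hs0 : 0 < s) (hs1 : s < 1) {l : ℂ → ℝ} (hl : CircleIntegrable l c ρ)
    (hS : ∀ z, ‖z - c‖ = ρ → l z ≤ VV β s z) :
    circleAverage l c ρ ≤ circleAverage (QQ β c ρ) 0 s := by
  obtain ⟨h1, h2⟩ := fub hβ c hρ hs0 hs1
  have hm : ∀ φ, ‖circleMap c ρ φ - c‖ = ρ := by
    intro φ
    have := circleMap_mem_sphere c hρ.le φ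
    rwa [mem_sphere, dist_eq_norm] at this
  have hlC : ∀ φ, l (circleMap c ρ φ) ≤ CC c ρ := fun φ =>
    (hS _ (hm φ)).trans (V_le hβ hρ hs0 hs1 φ)
  have hli := integrable_of hl
  have h3 : ENNReal.ofReal (CC c ρ - circleAverage (QQ β c ρ) 0 s) ≤
      ENNReal.ofReal (CC c ρ - circleAverage l c ρ) := by
    rw [← h2, avg_eq l c ρ, ← lint hli hlC]
    apply lintegral_mono
    intro φ
    apply ENNReal.ofReal_le_ofReal
    have := hS _ (hm φ)
    linarith
  have h4 : circleAverage l c ρ ≤ CC c ρ := by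
    rw [avg_eq]
    exact integral_le hli hlC
  rw [ENNReal.ofReal_le_ofReal_iff (by linarith)] at h3
  linarith

/-- upper bound -/
theorem upper_q (hβ : IsBeta d β) (c : ℂ) {ρ s : ℝ} (hρ : 0 < ρ)
    (hs0 : 0 < s) (hs1 : s < 1) {l : ℂ → ℝ} (hl : CircleIntegrable l c ρ)
    (hS : ∀ z, ‖z - c‖ = ρ → VV β s z ≤ l z) :
    circleAverage (QQ β c ρ) 0 s ≤ circleAverage l c ρ := by
  obtain ⟨h1, h2⟩ := fub hβ c hρ hs0 hs1
  have hm : ∀ φ, ‖circleMap c ρ φ - c‖ = ρ := by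
    intro φ
    have := circleMap_mem_sphere c hρ.le φ
    rwa [mem_sphere, dist_eq_norm] at this
  have hli := integrable_of hl
  have hpos : ∀ φ, 0 ≤ CC c ρ - VV β s (circleMap c ρ φ) := fun φ =>
    sub_nonneg.2 (V_le hβ hρ hs0 hs1 φ)
  have h5 : Integrable (fun φ => CC c ρ - l (circleMap c ρ φ)) cm := (integrable_const _).sub hli
  have h6 : ∫ φ, (CC c ρ - l (circleMap c ρ φ)) ∂cm = CC c ρ - circleAverage l c ρ := by
    rw [integral_sub (integrable_const _) hli, ← avg_eq l c ρ, integral_const]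
    simp
  have h7 : ENNReal.ofReal (CC c ρ - circleAverage l c ρ) ≤
      ENNReal.ofReal (CC c ρ - circleAverage (QQ β c ρ) 0 s) := by
    rw [← h6, ← h2]
    refine (ofReal_int_le h5).trans ?_
    apply lintegral_mono
    intro φ
    apply ENNReal.ofReal_le_ofReal
    have := hS _ (hm φ)
    linarith
  rw [ENNReal.ofReal_le_ofReal_iff (by linarith)] at h7
  linarith

end Pool.Agent.N601.LL
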