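import Mathlib

set_option autoImplicit false

/-! # Good radii and the truncated logarithm -/

namespace Pool.Agent.N601.LL

open Real

/-- A radius at a definite distance from finitely many points. -/
theorem good_radius (S : Finset ℝ) {D : ℕ} (hS : S.card ≤ D) {α β : ℝ} (h : α < β) :
    ∃ ρ, α < ρ ∧ ρ < β ∧ ∀ s ∈ S, (β - α) / (2 * (D + 1)) ≤ |ρ - s| := by
  classical
  by_contra hcon
  push Not at hcon
  obtain ⟨η, hη⟩ : ∃ η : ℝ, η = (β - α) / (2 * (D + 1)) := ⟨_, rfl⟩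
  rw [← hη] at hcon
  have hD : (0:ℝ) < 2 * (D + 1) := by positivity
  have hη0 : 0 < η := by rw [hη]; exact div_pos (by linarith) hD
  have hηe : η * (2 * (D + 1)) = β - α := by rw [hη]; field_simp
  have hm : ∀ j ∈ Finset.range (D + 1), ∃ s ∈ S, |α + (2 * (j:ℝ) + 1) * η - s| < η := by
    intro j hj
    rw [Finset.mem_range] at hj
    have hj' : (j : ℝ) ≤ D := by exact_mod_cast (by omega : j ≤ D)
    have hj0 : (0 : ℝ) ≤ j := j.cast_nonneg
    exact hcon (α + (2 * j + 1) * η) (by nlinarith) (by nlinarith)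
  choose! f hf1 hf2 using hm
  have hinj : Set.InjOn f (Finset.range (D + 1) : Set ℕ) := by
    intro i hi j hj hij
    by_contra hne
    have h1 := hf2 i hi
    have h2 := hf2 j hj
    rw [hij] at h1
    have h3 : |(α + (2 * (i:ℝ) + 1) * η) - (α + (2 * (j:ℝ) + 1) * η)| < 2 * η := by
      have h4 : (α + (2 * (i:ℝ) + 1) * η) - (α + (2 * (j:ℝ) + 1) * η) =
        (α + (2 * (i:ℝ) + 1) * η - f j) - (α + (2 * (j:ℝ) + 1) * η - f j) := by ring
      rw [h4]
      have := abs_sub (α + (2 * (i:ℝ) + 1) * η - f j) (α + (2 * (j:ℝ) + 1) * η - f j)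
      linarith
    have h4 : (α + (2 * (i:ℝ) + 1) * η) - (α + (2 * (j:ℝ) + 1) * η) = ((i:ℝ) - j) * (2 * η) := by
      ring
    rw [h4, abs_mul, abs_of_pos (by linarith : 0 < 2 * η)] at h3
    have h5 : |(i:ℝ) - j| < 1 := by nlinarith
    have h6 : |((i:ℤ) - j : ℤ)| < 1 := by
      have : ((|((i:ℤ) - j : ℤ)| : ℤ) : ℝ) < 1 := by push_cast; exact h5
      exact_mod_cast this
    rw [Int.abs_lt_one_iff] at h6
    omega
  have h1 := Finset.card_le_card_of_injOn f (fun j hj => by exact_mod_cast hf1 j (by exact_mod_cast hj)) hinj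
  rw [Finset.card_range] at h1
  omega

/-- the truncated logarithm -/
noncomputable def LM (ρ t : ℝ) : ℝ := Real.log (max ρ t)

theorem LM_eq {ρ : ℝ} (hρ : 0 < ρ) {t : ℝ} (ht : 0 ≤ t) :
    Real.log ρ + Real.posLog (ρ⁻¹ * t) = LM ρ t := by
  unfold LM
  rcases le_total t ρ with h | h
  · rw [max_eq_left h]
    have h1 : Real.posLog (ρ⁻¹ * t) = 0 := by
      rw [Real.posLog_eq_zero_iff, abs_of_nonneg (by positivity), inv_mul_le_iff₀ hρ]
      linarith
    rw [h1, add_zero]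
  · rw [max_eq_right h]
    have ht0 : 0 < t := hρ.trans_le h
    rw [Real.posLog_eq_log, Real.log_mul (by positivity) (by positivity), Real.log_inv]
    · ring
    · rw [abs_of_nonneg (by positivity), inv_mul_eq_div, le_div_iff₀ hρ]
      linarith

theorem LM_le {ρ ρ' : ℝ} (hρ : 0 < ρ) (h : ρ ≤ ρ') {t : ℝ} :
    LM ρ' t - LM ρ t ≤ Real.log (ρ' / ρ) := by
  unfold LM
  have h1 : 0 < max ρ t := lt_max_of_lt_left hρ
  have h2 : max ρ' t ≤ ρ' / ρ * max ρ t := by
    apply max_le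
    · have h0 : 0 ≤ ρ' / ρ := by have : 0 < ρ' := hρ.trans_le h; positivity
      calc ρ' = ρ' / ρ * ρ := by field_simp
        _ ≤ ρ' / ρ * max ρ t := mul_le_mul_of_nonneg_left (le_max_left ρ t) h0
    · have h0 : 0 ≤ ρ' / ρ := by have : 0 < ρ' := hρ.trans_le h; positivity
      rcases le_total 0 t with ht | ht
      · calc t = 1 * t := by ring
          _ ≤ ρ' / ρ * t := by gcongr; rw [le_div_iff₀ hρ]; linarith
          _ ≤ ρ' / ρ * max ρ t := mul_le_mul_of_nonneg_left (le_max_right ρ t) h0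
      · have : 0 < ρ' := hρ.trans_le h
        have : 0 < ρ' / ρ * max ρ t := by positivity
        linarith
  have h3 := Real.log_le_log (lt_max_of_lt_left (hρ.trans_le h)) h2
  have : 0 < ρ' := hρ.trans_le h
  rw [Real.log_mul (by positivity) h1.ne'] at h3
  linarith

theorem LM_nonneg {ρ ρ' : ℝ} (hρ : 0 < ρ) (h : ρ ≤ ρ') {t : ℝ} : 0 ≤ LM ρ' t - LM ρ t := by
  unfold LM
  have := Real.log_le_log (lt_max_of_lt_left hρ : 0 < max ρ t) (max_le_max_right t h)
  linarith

theorem LM_eq_zero {ρ ρ' : ℝ} (h : ρ ≤ ρ') {t : ℝ} (ht : ρ' ≤ t) : LM ρ' t - LM ρ t = 0 := by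
  unfold LM
  rw [max_eq_right ht, max_eq_right (h.trans ht), sub_self]

theorem LM_eq_log {ρ ρ' : ℝ} (hρ : 0 < ρ) (h : ρ ≤ ρ') {t : ℝ} (ht : t ≤ ρ) :
    LM ρ' t - LM ρ t = Real.log (ρ' / ρ) := by
  unfold LM
  have : 0 < ρ' := hρ.trans_le h
  rw [max_eq_left ht, max_eq_left (ht.trans h), Real.log_div (by positivity) (by positivity)]

theorem LM_cont {ρ : ℝ} (hρ : 0 < ρ) : Continuous (LM ρ) := by
  unfold LM
  apply Continuous.log (continuous_const.max continuous_id)
  intro t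
  exact (lt_max_of_lt_left hρ).ne'

end Pool.Agent.N601.LL
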