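import Pool.Agent.N601.LL.Good
import Pool.Agent.R240.Sep

set_option autoImplicit false

/-! # Jensen's formula for the critical orbit polynomials -/

namespace Pool.Agent.N601.LL

open Complex Metric Set Filter Topology MeasureTheory Pool.Agent.H712R2 Pool.Agent.H713R2
open N62a1eb23 Pool.Agent.R240 Pool.Agent.R240.Trans Pool.Agent.R240.Univ
open Real (posLog circleAverage)
open Polynomial (X C)

variable {d N : ℕ}

theorem PP_ne (hd : 2 ≤ d) (N : ℕ) : PP d (N + 1) ≠ 0 := by
  intro h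
  have h1 := natDegree_PP hd N
  rw [h, Polynomial.natDegree_zero] at h1
  have : 0 < d ^ N := pow_pos (by omega) N
  omega

theorem PP_monic (hd : 2 ≤ d) (N : ℕ) : (PP d (N + 1)).Monic := by
  induction N with
  | zero =>
    have h : PP d (0 + 1) = X := by
      show (PP d 0) ^ d + X = X
      simp [PP, zero_pow (show d ≠ 0 by omega)]
    rw [h]
    exact Polynomial.monic_X
  | succ k ih =>
    show ((PP d (k + 1)) ^ d + X).Monic
    apply Polynomial.Monic.add_of_left (ih.pow d)
    rw [Polynomial.degree_X, Polynomial.degree_eq_natDegree (pow_ne_zero _ (PP_ne hd k)),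
      Polynomial.natDegree_pow, natDegree_PP hd k]
    have h1 : 1 < d * d ^ k := by
      have : 0 < d ^ k := pow_pos (by omega) k
      nlinarith
    exact_mod_cast h1

/-- the centres of period dividing `N + 1` -/
noncomputable def ZZ (d N : ℕ) : Finset ℂ := (PP d (N + 1)).roots.toFinset

theorem mem_ZZ (hd : 2 ≤ d) {a : ℂ} : a ∈ ZZ d N ↔ P d (N + 1) a = 0 := by
  unfold ZZ
  rw [Multiset.mem_toFinset, Polynomial.mem_roots (PP_ne hd N), Polynomial.IsRoot.def, eval_PP]

theorem nodup (hd : 2 ≤ d) (N : ℕ) : (PP d (N + 1)).roots.Nodup := by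
  rw [Multiset.nodup_iff_count_le_one]
  intro a
  rw [Polynomial.count_roots]
  by_contra hcon
  push Not at hcon
  have h1 := (Polynomial.one_lt_rootMultiplicity_iff_isRoot (PP_ne hd N)).1 hcon
  have h2 : P d (N + 1) a = 0 := by
    rw [← eval_PP]
    exact h1.1
  have h3 := Pool.Agent.R240.Trans.der_centre hd (by omega : 1 ≤ N + 1) h2
  have h4 : deriv (P d (N + 1)) a = 0 := by
    have h5 : P d (N + 1) = fun x => (PP d (N + 1)).eval x := by
      funext x
      rw [eval_PP]
    rw [h5, Polynomial.deriv]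
    exact h1.2
  rw [h4, norm_zero, mul_zero] at h3
  linarith

theorem P_prod (hd : 2 ≤ d) (N : ℕ) (z : ℂ) : P d (N + 1) z = ∏ a ∈ ZZ d N, (z - a) := by
  have h1 := (IsAlgClosed.splits (PP d (N + 1))).eq_prod_roots_of_monic (PP_monic hd N)
  rw [← eval_PP]
  conv_lhs => rw [h1]
  rw [Polynomial.eval_multiset_prod, Multiset.map_map]
  unfold ZZ
  rw [Finset.prod, Multiset.toFinset_val, (nodup hd N).dedup]
  congr 1
  apply Multiset.map_congr rfl
  intro a _
  simp

theorem ZZ_card (hd : 2 ≤ d) (N : ℕ) : (ZZ d N).card ≤ d ^ N := by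
  unfold ZZ
  refine (Multiset.toFinset_card_le _).trans ((Polynomial.card_roots' _).trans ?_)
  rw [natDegree_PP hd]

/-- **Jensen's formula.** -/
theorem jensen (hd : 2 ≤ d) (N : ℕ) (c : ℂ) {ρ : ℝ} (hρ : 0 < ρ)
    (hne : ∀ a ∈ ZZ d N, ‖c - a‖ ≠ ρ) :
    CircleIntegrable (fun z => Real.log ‖P d (N + 1) z‖) c ρ ∧
    circleAverage (fun z => Real.log ‖P d (N + 1) z‖) c ρ = ∑ a ∈ ZZ d N, LM ρ ‖c - a‖ := by
  have hi : ∀ a ∈ ZZ d N, CircleIntegrable (fun z => Real.log ‖z - a‖) c ρ := fun a _ =>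
    circleIntegrable_log_norm_sub_const ρ
  have hsum : ∀ z ∈ sphere c |ρ|, Real.log ‖P d (N + 1) z‖ = ∑ a ∈ ZZ d N, Real.log ‖z - a‖ := by
    intro z hz
    rw [P_prod hd, norm_prod, Real.log_prod]
    intro a ha
    rw [norm_ne_zero_iff, sub_ne_zero]
    rintro rfl
    rw [mem_sphere, dist_comm, dist_eq_norm, abs_of_pos hρ] at hz
    exact hne z ha hz
  have hs : CircleIntegrable (fun z => ∑ a ∈ ZZ d N, Real.log ‖z - a‖) c ρ :=
    CircleIntegrable.fun_sum _ hi
  refine ⟨?_, ?_⟩
  · exact (circleIntegrable_congr hsum).2 hs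
  · rw [Real.circleAverage_congr_sphere hsum, Real.circleAverage_fun_sum hi]
    apply Finset.sum_congr rfl
    intro a _
    rw [circleAverage_log_norm_sub_const_eq_log_radius_add_posLog hρ.ne']
    exact LM_eq hρ (norm_nonneg _)

end Pool.Agent.N601.LL
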