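import Pool.Agent.N601.LL.Fub

set_option autoImplicit false

/-! # The limit at the unit circle -/

namespace Pool.Agent.N601.LL

open Complex Metric Set Filter Topology MeasureTheory Pool.Agent.H712R2 Pool.Agent.H713R2
open N62a1eb23 Pool.Agent.Y736.HD
open Real (posLog circleAverage)

variable {d : ℕ} {β ψ : ℂ → ℂ}

/-- the mean over the circle of angles of the exterior map -/
theorem avg_q (hβ : IsBeta d β) (hψ : IsExteriorMap (multibrotSet d) ψ) (c : ℂ) (ρ : ℝ)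
    {s : ℝ} (hs0 : 0 < s) (hs1 : s < 1) : circleAverage (QQ β c ρ) 0 s =
      ∫ θ, (Real.log s + LM ρ ‖c - ψ ((s⁻¹ : ℝ) * exp (θ * I))‖) ∂cm := by
  rw [Real.circleAverage_eq_circleAverage_zero_one, ← Real.circleAverage_zero_one_congr_inv, avg_eq]
  apply integral_congr_ae
  refine Eventually.of_forall fun θ => ?_
  have hE : circleMap 0 1 θ = exp (θ * I) := by
    rw [circleMap_zero]
    push_cast
    ring
  have hw : 1 < ‖((s⁻¹ : ℝ) : ℂ) * exp (θ * I)‖ := by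
    rw [norm_mul, Complex.norm_exp_ofReal_mul_I, mul_one, Complex.norm_real,
      Real.norm_of_nonneg (by positivity)]
    exact (one_lt_inv₀ hs0).2 hs1
  show QQ β c ρ (s * (circleMap 0 1 θ)⁻¹ + 0) =
    Real.log s + LM ρ ‖c - ψ ((s⁻¹ : ℝ) * exp (θ * I))‖
  rw [exteriorMap_unique hβ hψ hw, hE, add_zero]
  unfold QQ
  have e : ((s⁻¹ : ℝ) : ℂ) * exp (θ * I) = (s * (exp (θ * I))⁻¹)⁻¹ := by
    rw [mul_inv, inv_inv]
    push_cast
    rfl
  have e2 : ‖(s : ℂ) * (exp (θ * I))⁻¹‖ = s := by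
    rw [norm_mul, norm_inv, Complex.norm_exp_ofReal_mul_I, inv_one, mul_one, Complex.norm_real,
      Real.norm_of_nonneg hs0.le]
  rw [e, inv_inv, e2]

/-- the normalised harmonic measure of a disc -/
noncomputable def om1 (ψ : ℂ → ℂ) (c : ℂ) (r : ℝ) : ℝ :=
  (volume (Ang ψ c r)).toReal / (2 * Real.pi)

theorem om1_eq (ψ : ℂ → ℂ) (c : ℂ) (r : ℝ) : cm.real (Ang ψ c r) = om1 ψ c r := by
  unfold Measure.real om1
  have hpi := Real.pi_pos
  rw [cm_eq, inter_eq_left.2 (Ang_sub ψ c r), ENNReal.toReal_mul,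
    ENNReal.toReal_ofReal (by positivity)]
  ring

/-- **The limit of the differences of the means.** -/
theorem lim_q (hd : 2 ≤ d) (hβ : IsBeta d β) (hψ : IsExteriorMap (multibrotSet d) ψ) (c : ℂ)
    {ρ ρ' : ℝ} (hρ : 0 < ρ) (h : ρ < ρ') :
    ∃ T : ℝ, Real.log (ρ' / ρ) * om1 ψ c ρ ≤ T ∧ T ≤ Real.log (ρ' / ρ) * om1 ψ c ρ' ∧
      Tendsto (fun n => circleAverage (QQ β c ρ') 0 (sn n) - circleAverage (QQ β c ρ) 0 (sn n))
        atTop (𝓝 T) := by
  classical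
  have hρ' : 0 < ρ' := hρ.trans h
  obtain ⟨A, hA⟩ : ∃ A, A = Real.log (ρ' / ρ) := ⟨_, rfl⟩
  have hA0 : 0 < A := by
    rw [hA]
    apply Real.log_pos
    rwa [lt_div_iff₀ hρ, one_mul]
  obtain ⟨Φ, hΦ⟩ : ∃ Φ : ℝ → ℝ, Φ = fun t => LM ρ' t - LM ρ t := ⟨_, rfl⟩
  have hΦc : Continuous Φ := by
    rw [hΦ]
    exact (LM_cont hρ').sub (LM_cont hρ)
  have hΦ0 : ∀ t, 0 ≤ Φ t := fun t => by rw [hΦ]; exact LM_nonneg hρ h.le
  have hΦA : ∀ t, Φ t ≤ A := fun t => by rw [hΦ, hA]; exact LM_le hρ h.le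
  obtain ⟨F, hF⟩ : ∃ F : ℕ → ℝ → ℝ,
      F = fun (n : ℕ) (θ : ℝ) => Φ ‖c - ψ (((sn n)⁻¹ : ℝ) * exp (θ * I))‖ := ⟨_, rfl⟩
  have hcont : ∀ n, Continuous fun θ : ℝ => ψ (((sn n)⁻¹ : ℝ) * exp (θ * I)) := fun n =>
    Pool.Agent.Y736.HG.cont_pt hψ (sn_pos n) (sn_lt n)
  have hFc : ∀ n, Continuous (F n) := by
    intro n
    rw [hF]
    exact hΦc.comp (continuous_const.sub (hcont n)).norm
  -- the landing points
  obtain ⟨ζ, hζ⟩ : ∃ ζ : ℝ → ℂ, ζ = fun (θ : ℝ) =>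
      if hh : ∃ z : ℂ, Tendsto (fun r : ℝ => ψ (r * exp (θ * I))) (𝓝[>] 1) (𝓝 z) then hh.choose
      else 0 := ⟨_, rfl⟩
  have hζl : ∀ᵐ (θ : ℝ) ∂cm, Tendsto (fun r : ℝ => ψ (r * exp (θ * I))) (𝓝[>] 1) (𝓝 (ζ θ)) := by
    have h1 : ∀ᵐ θ : ℝ, Tendsto (fun r : ℝ => ψ (r * exp (θ * I))) (𝓝[>] 1) (𝓝 (ζ θ)) := by
      filter_upwards [Pool.Agent.Y736.HG.ae_land hd hψ] with θ hθ
      rw [hζ]
      simp only [hθ, dif_pos]
      exact hθ.choose_spec
    unfold cm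
    exact Measure.ae_smul_measure (ae_restrict_of_ae h1) _
  have hIoc : ∀ᵐ θ ∂cm, θ ∈ Ioc 0 (2 * Real.pi) := by
    unfold cm
    exact Measure.ae_smul_measure (ae_restrict_mem measurableSet_Ioc) _
  obtain ⟨G, hG⟩ : ∃ G : ℝ → ℝ, G = fun θ => Φ ‖c - ζ θ‖ := ⟨_, rfl⟩
  have hlim : ∀ᵐ θ ∂cm, Tendsto (fun n => F n θ) atTop (𝓝 (G θ)) := by
    filter_upwards [hζl] with θ hθ
    rw [hF, hG]
    exact (hΦc.tendsto _).comp (((hθ.comp sn_inv_lim).const_sub c).norm)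
  have hFb : ∀ n, ∀ᵐ θ ∂cm, ‖F n θ‖ ≤ A := by
    intro n
    refine Eventually.of_forall fun θ => ?_
    rw [hF]
    show |Φ _| ≤ A
    rw [abs_of_nonneg (hΦ0 _)]
    exact hΦA _
  have hT := tendsto_integral_of_dominated_convergence (μ := cm) (fun _ => A)
    (fun n => (hFc n).aestronglyMeasurable) (integrable_const A) hFb hlim
  have hGm : AEStronglyMeasurable G cm :=
    aestronglyMeasurable_of_tendsto_ae atTop (fun n => (hFc n).aestronglyMeasurable) hlim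
  have hGi : Integrable G cm := by
    apply Integrable.mono' (integrable_const A) hGm
    refine Eventually.of_forall fun θ => ?_
    rw [hG]
    show |Φ _| ≤ A
    rw [abs_of_nonneg (hΦ0 _)]
    exact hΦA _
  have hG0 : ∀ θ, 0 ≤ G θ := fun θ => by rw [hG]; exact hΦ0 _
  refine ⟨∫ θ, G θ ∂cm, ?_, ?_, ?_⟩
  · -- lower bound
    rw [← hA, ← om1_eq]
    have h1 : Ang ψ c ρ ⊆ {θ | A ≤ G θ} ∪ {θ : ℝ | ¬ Tendsto (fun r : ℝ => ψ (r * exp (θ * I)))
        (𝓝[>] 1) (𝓝 (ζ θ))} := by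
      rintro θ ⟨-, z, hz, hzl⟩
      by_cases hh : Tendsto (fun r : ℝ => ψ (r * exp (θ * I))) (𝓝[>] 1) (𝓝 (ζ θ))
      · left
        have e : ζ θ = z := tendsto_nhds_unique hh hzl
        show A ≤ G θ
        rw [hG]
        show A ≤ Φ ‖c - ζ θ‖
        rw [e, hΦ, hA]
        apply le_of_eq
        symm
        apply LM_eq_log hρ h.le
        rw [mem_ball, dist_comm, dist_eq_norm] at hz
        exact hz.le
      · exact Or.inr hh
    have h2 : cm {θ : ℝ | ¬ Tendsto (fun r : ℝ => ψ (r * exp (θ * I))) (𝓝[>] 1) (𝓝 (ζ θ))} = 0 := hζl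
    have h3 : cm.real (Ang ψ c ρ) ≤ cm.real {θ | A ≤ G θ} := by
      apply ENNReal.toReal_mono (measure_ne_top _ _)
      refine (measure_mono h1).trans ((measure_union_le _ _).trans ?_)
      rw [h2, add_zero]
    have h4 := mul_meas_ge_le_integral_of_nonneg (Eventually.of_forall hG0) hGi A
    exact (mul_le_mul_of_nonneg_left h3 hA0.le).trans h4
  · -- upper bound
    rw [← hA, ← om1_eq]
    obtain ⟨S, hS⟩ : ∃ S, S = toMeasurable cm (Ang ψ c ρ') := ⟨_, rfl⟩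
    have hSm : MeasurableSet S := by rw [hS]; exact measurableSet_toMeasurable _ _
    have hSs : Ang ψ c ρ' ⊆ S := by rw [hS]; exact subset_toMeasurable _ _
    have hSc : cm.real S = cm.real (Ang ψ c ρ') := by
      unfold Measure.real
      rw [hS, measure_toMeasurable]
    rw [← hSc]
    have h3 : Integrable (S.indicator fun _ => (1 : ℝ)) cm := (integrable_const _).indicator hSm
    have h4 : cm.real S = ∫ θ, S.indicator (fun _ => (1 : ℝ)) θ ∂cm := by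
      rw [integral_indicator hSm, setIntegral_const, smul_eq_mul, mul_one]
    rw [h4, ← integral_const_mul]
    apply integral_mono_ae hGi (h3.const_mul A)
    filter_upwards [hζl, hIoc] with θ h5 h6
    by_cases h7 : ‖c - ζ θ‖ < ρ'
    · have h8 : θ ∈ S := hSs ⟨h6, ζ θ, by rwa [mem_ball, dist_comm, dist_eq_norm], h5⟩
      rw [indicator_of_mem h8, mul_one, hG]
      exact hΦA _
    · push Not at h7
      have h8 : G θ = 0 := by
        rw [hG, hΦ]
        exact LM_eq_zero h.le h7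
      rw [h8]
      apply mul_nonneg hA0.le
      apply indicator_nonneg
      intro _ _
      exact zero_le_one
  · refine hT.congr fun n => ?_
    have hc1 : ∀ r : ℝ, 0 < r → Continuous fun θ : ℝ =>
        Real.log (sn n) + LM r ‖c - ψ (((sn n)⁻¹ : ℝ) * exp (θ * I))‖ := fun r hr =>
      continuous_const.add ((LM_cont hr).comp (continuous_const.sub (hcont n)).norm)
    rw [avg_q hβ hψ c ρ' (sn_pos n) (sn_lt n), avg_q hβ hψ c ρ (sn_pos n) (sn_lt n),
      ← integral_sub (integrable_cont (hc1 ρ' hρ')) (integrable_cont (hc1 ρ hρ))]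
    congr 1
    funext θ
    rw [hF, hΦ]
    ring

end Pool.Agent.N601.LL
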