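import Pool.Agent.N601.LL.Lim

set_option autoImplicit false

/-! # The local law for the centres -/

namespace Pool.Agent.N601.LL

open Complex Metric Set Filter Topology MeasureTheory Pool.Agent.H712R2 Pool.Agent.H713R2
open N62a1eb23 Pool.Agent.Y736.HD Pool.Agent.R240
open Real (posLog circleAverage)

variable {d N : ℕ} {β ψ : ℂ → ℂ}

/-- the sum over the centres -/
noncomputable def JJ (d N : ℕ) (c : ℂ) (ρ : ℝ) : ℝ := ∑ a ∈ ZZ d N, LM ρ ‖c - a‖

/-- comparison of the sum over the centres and the mean over an equipotential, at a good radius -/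
theorem level (hd : 2 ≤ d) (hβ : IsBeta d β) (N : ℕ) (c : ℂ) {ρ δ : ℝ} (hρ : 0 < ρ)
    (hδ0 : 0 < δ) (hδ1 : δ ≤ 1) (h : ∀ a ∈ ZZ d N, δ ≤ |ρ - ‖c - a‖|)
    {s : ℝ} (hs0 : 0 < s) (hs1 : s < 1) :
    |JJ d N c ρ - (d:ℝ) ^ N * circleAverage (QQ β c ρ) 0 s| ≤
      KI * ((N + 1 : ℕ) : ℝ) * Real.log d + 2 * Real.log (1 / δ) +
        (d:ℝ) ^ N * Real.log (1 / s) := by
  obtain ⟨E, hE⟩ : ∃ E, E = KI * ((N + 1 : ℕ) : ℝ) * Real.log d + 2 * Real.log (1 / δ) +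
        (d:ℝ) ^ N * Real.log (1 / s) := ⟨_, rfl⟩
  rw [← hE]
  have hd0 : (2:ℝ) ≤ d := by exact_mod_cast hd
  obtain ⟨D, hD⟩ : ∃ D : ℝ, D = (d:ℝ) ^ N := ⟨_, rfl⟩
  have hD0 : 0 < D := by rw [hD]; positivity
  have hne : ∀ a ∈ ZZ d N, ‖c - a‖ ≠ ρ := by
    intro a ha h1
    have := h a ha
    rw [h1, sub_self, abs_zero] at this
    linarith
  obtain ⟨hi, hj⟩ := jensen hd N c hρ hne
  have hpt : ∀ z, ‖z - c‖ = ρ → |Real.log ‖P d (N + 1) z‖ - D * VV β s z| ≤ E := by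
    intro z hz
    rw [hE, hD]
    apply pt hd hβ N hδ0 hδ1 _ hs0 hs1
    intro a ha
    refine (h a ha).trans ?_
    rw [← hz]
    have h1 : z - a = (z - c) - (a - c) := by ring
    rw [h1, norm_sub_rev c a]
    exact abs_norm_sub_norm_le _ _
  have hl1 : CircleIntegrable (fun z => (Real.log ‖P d (N + 1) z‖ - E) * D⁻¹) c ρ :=
    IntervalIntegrable.mul_const (hi.fun_sub (circleIntegrable_const _ _ _)) _
  have hl2 : CircleIntegrable (fun z => (Real.log ‖P d (N + 1) z‖ + E) * D⁻¹) c ρ :=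
    IntervalIntegrable.mul_const (hi.fun_add (circleIntegrable_const _ _ _)) _
  have h1 := lower_q hβ c hρ hs0 hs1 hl1 (fun z hz => by
    have := (abs_le.1 (hpt z hz)).2
    rw [← div_eq_mul_inv, div_le_iff₀ hD0]
    linarith)
  have h2 := upper_q hβ c hρ hs0 hs1 hl2 (fun z hz => by
    have := (abs_le.1 (hpt z hz)).1
    rw [← div_eq_mul_inv, le_div_iff₀ hD0]
    linarith)
  have e1 : circleAverage (fun z => (Real.log ‖P d (N + 1) z‖ - E) * D⁻¹) c ρ =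
      (JJ d N c ρ - E) * D⁻¹ := by
    have e : (fun z => (Real.log ‖P d (N + 1) z‖ - E) * D⁻¹) =
        fun z => D⁻¹ • (Real.log ‖P d (N + 1) z‖ - E) := by
      funext z
      rw [smul_eq_mul, mul_comm]
    rw [e, Real.circleAverage_fun_smul, Real.circleAverage_fun_sub hi (circleIntegrable_const _ _ _),
      Real.circleAverage_const, hj, smul_eq_mul, mul_comm]
    rfl
  have e2 : circleAverage (fun z => (Real.log ‖P d (N + 1) z‖ + E) * D⁻¹) c ρ =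
      (JJ d N c ρ + E) * D⁻¹ := by
    have e : (fun z => (Real.log ‖P d (N + 1) z‖ + E) * D⁻¹) =
        fun z => D⁻¹ • (Real.log ‖P d (N + 1) z‖ + E) := by
      funext z
      rw [smul_eq_mul, mul_comm]
    rw [e, Real.circleAverage_fun_smul, Real.circleAverage_fun_add hi (circleIntegrable_const _ _ _),
      Real.circleAverage_const, hj, smul_eq_mul, mul_comm]
    rfl
  rw [e1, ← div_eq_mul_inv, div_le_iff₀ hD0] at h1
  rw [e2, ← div_eq_mul_inv, le_div_iff₀ hD0] at h2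
  rw [← hD, abs_le]
  constructor <;> linarith

/-- the comparison with the harmonic measure, at two good radii -/
theorem two_radii (hd : 2 ≤ d) (hβ : IsBeta d β) (hψ : IsExteriorMap (multibrotSet d) ψ) (N : ℕ)
    (c : ℂ) {ρ ρ' δ : ℝ} (hρ : 0 < ρ) (hρρ : ρ < ρ')
    (hδ0 : 0 < δ) (hδ1 : δ ≤ 1) (h : ∀ a ∈ ZZ d N, δ ≤ |ρ - ‖c - a‖|)
    (h' : ∀ a ∈ ZZ d N, δ ≤ |ρ' - ‖c - a‖|) :
    (d:ℝ) ^ N * (Real.log (ρ' / ρ) * om1 ψ c ρ) ≤ JJ d N c ρ' - JJ d N c ρ +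
      2 * (KI * ((N + 1 : ℕ) : ℝ) * Real.log d + 2 * Real.log (1 / δ)) ∧
    JJ d N c ρ' - JJ d N c ρ ≤ (d:ℝ) ^ N * (Real.log (ρ' / ρ) * om1 ψ c ρ') +
      2 * (KI * ((N + 1 : ℕ) : ℝ) * Real.log d + 2 * Real.log (1 / δ)) := by
  have hρ' : 0 < ρ' := hρ.trans hρρ
  have hd0 : (2:ℝ) ≤ d := by exact_mod_cast hd
  obtain ⟨E, hE⟩ : ∃ E, E = KI * ((N + 1 : ℕ) : ℝ) * Real.log d + 2 * Real.log (1 / δ) := ⟨_, rfl⟩
  obtain ⟨D, hD⟩ : ∃ D : ℝ, D = (d:ℝ) ^ N := ⟨_, rfl⟩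
  have hD0 : 0 < D := by rw [hD]; positivity
  obtain ⟨T, hT1, hT2, hT⟩ := lim_q hd hβ hψ c hρ hρρ
  have hlog : Tendsto (fun n => Real.log (1 / sn n)) atTop (𝓝 0) := by
    have h1 : Tendsto (fun n => 1 / sn n) atTop (𝓝 (1 / 1)) :=
      tendsto_const_nhds.div sn_lim one_ne_zero
    rw [div_one] at h1
    have h2 := (Real.continuousAt_log one_ne_zero).tendsto.comp h1
    rw [Real.log_one] at h2
    exact h2
  have hR : Tendsto (fun n => 2 * (E + D * Real.log (1 / sn n))) atTop (𝓝 (2 * (E + D * 0))) :=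
    ((hlog.const_mul D).const_add E).const_mul 2
  rw [mul_zero, add_zero] at hR
  have hkey : ∀ n, |(JJ d N c ρ' - JJ d N c ρ) - D * (circleAverage (QQ β c ρ') 0 (sn n) -
      circleAverage (QQ β c ρ) 0 (sn n))| ≤ 2 * (E + D * Real.log (1 / sn n)) := by
    intro n
    have h1 := level hd hβ N c hρ hδ0 hδ1 h (sn_pos n) (sn_lt n)
    have h2 := level hd hβ N c hρ' hδ0 hδ1 h' (sn_pos n) (sn_lt n)
    rw [← hE, ← hD] at h1 h2
    have e : (JJ d N c ρ' - JJ d N c ρ) - D * (circleAverage (QQ β c ρ') 0 (sn n) -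
      circleAverage (QQ β c ρ) 0 (sn n)) =
      (JJ d N c ρ' - D * circleAverage (QQ β c ρ') 0 (sn n)) -
      (JJ d N c ρ - D * circleAverage (QQ β c ρ) 0 (sn n)) := by ring
    rw [e]
    refine (abs_sub _ _).trans ?_
    linarith
  have hL : Tendsto (fun n => |(JJ d N c ρ' - JJ d N c ρ) - D * (circleAverage (QQ β c ρ') 0 (sn n) -
      circleAverage (QQ β c ρ) 0 (sn n))|) atTop (𝓝 |(JJ d N c ρ' - JJ d N c ρ) - D * T|) :=
    ((hT.const_mul D).const_sub _).abs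
  have hfin := le_of_tendsto_of_tendsto' hL hR hkey
  rw [abs_le] at hfin
  rw [← hE, ← hD]
  have h3 : D * (Real.log (ρ' / ρ) * om1 ψ c ρ) ≤ D * T := mul_le_mul_of_nonneg_left hT1 hD0.le
  have h4 : D * T ≤ D * (Real.log (ρ' / ρ) * om1 ψ c ρ') := mul_le_mul_of_nonneg_left hT2 hD0.le
  constructor
  · linarith [hfin.1]
  · linarith [hfin.2]

/-- the number of centres in a disc -/
noncomputable def nn (d N : ℕ) (c : ℂ) (r : ℝ) : ℝ := ((Cen d (N + 1) c r).ncard : ℝ)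

theorem nn_eq (hd : 2 ≤ d) (N : ℕ) (c : ℂ) (r : ℝ) :
    nn d N c r = (((ZZ d N).filter fun a => ‖c - a‖ < r).card : ℝ) := by
  have h : Cen d (N + 1) c r = ((ZZ d N).filter fun a => ‖c - a‖ < r : Finset ℂ) := by
    ext a
    rw [Finset.mem_coe, Finset.mem_filter, mem_ZZ hd, norm_sub_rev c a]
    show (a ∈ ball c r ∧ P d (N + 1) a = 0) ↔ _
    rw [mem_ball, dist_eq_norm]
    exact and_comm
  unfold nn
  rw [h, Set.ncard_coe_finset]

theorem JJ_sub (d N : ℕ) (c : ℂ) (ρ ρ' : ℝ) : JJ d N c ρ' - JJ d N c ρ =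
    ∑ a ∈ ZZ d N, (LM ρ' ‖c - a‖ - LM ρ ‖c - a‖) := by
  unfold JJ
  rw [Finset.sum_sub_distrib]

theorem count_le (hd : 2 ≤ d) (N : ℕ) (c : ℂ) {r ρ ρ' : ℝ} (hρ : 0 < ρ) (hr : r ≤ ρ)
    (hρρ : ρ ≤ ρ') : nn d N c r * Real.log (ρ' / ρ) ≤ JJ d N c ρ' - JJ d N c ρ := by
  rw [nn_eq hd, JJ_sub, ← nsmul_eq_mul, ← Finset.sum_const]
  rw [← Finset.sum_filter_add_sum_filter_not (ZZ d N) (fun a => ‖c - a‖ < r)
    (fun a => LM ρ' ‖c - a‖ - LM ρ ‖c - a‖)]
  have h1 : 0 ≤ ∑ a ∈ (ZZ d N).filter (fun a => ¬ ‖c - a‖ < r),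
      (LM ρ' ‖c - a‖ - LM ρ ‖c - a‖) := Finset.sum_nonneg fun a _ => LM_nonneg hρ hρρ
  have h2 : ∑ _a ∈ (ZZ d N).filter (fun a => ‖c - a‖ < r), Real.log (ρ' / ρ) ≤
      ∑ a ∈ (ZZ d N).filter (fun a => ‖c - a‖ < r), (LM ρ' ‖c - a‖ - LM ρ ‖c - a‖) := by
    apply Finset.sum_le_sum
    intro a ha
    rw [Finset.mem_filter] at ha
    exact (LM_eq_log hρ hρρ (ha.2.le.trans hr)).ge
  linarith

theorem le_count (hd : 2 ≤ d) (N : ℕ) (c : ℂ) {r ρ ρ' : ℝ} (hρ : 0 < ρ) (hρρ : ρ ≤ ρ')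
    (hr : ρ' ≤ r) : JJ d N c ρ' - JJ d N c ρ ≤ nn d N c r * Real.log (ρ' / ρ) := by
  rw [nn_eq hd, JJ_sub, ← nsmul_eq_mul, ← Finset.sum_const]
  rw [← Finset.sum_filter_add_sum_filter_not (ZZ d N) (fun a => ‖c - a‖ < r)
    (fun a => LM ρ' ‖c - a‖ - LM ρ ‖c - a‖)]
  have h1 : ∑ a ∈ (ZZ d N).filter (fun a => ¬ ‖c - a‖ < r),
      (LM ρ' ‖c - a‖ - LM ρ ‖c - a‖) = 0 := by
    apply Finset.sum_eq_zero
    intro a ha
    rw [Finset.mem_filter] at ha
    exact LM_eq_zero hρρ (hr.trans (not_lt.1 ha.2))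
  have h2 : ∑ a ∈ (ZZ d N).filter (fun a => ‖c - a‖ < r), (LM ρ' ‖c - a‖ - LM ρ ‖c - a‖) ≤
      ∑ _a ∈ (ZZ d N).filter (fun a => ‖c - a‖ < r), Real.log (ρ' / ρ) := by
    apply Finset.sum_le_sum
    intro a _
    exact LM_le hρ hρρ
  linarith

theorem om1_mono (ψ : ℂ → ℂ) (c : ℂ) {r r' : ℝ} (h : r ≤ r') : om1 ψ c r ≤ om1 ψ c r' := by
  have hpi := Real.pi_pos
  have h1 := Pool.Agent.R240.om_mono ψ (ball_subset_ball h : ball c r ⊆ ball c r')
  unfold om1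
  exact div_le_div_of_nonneg_right h1 (by positivity)

theorem om1_nonneg (ψ : ℂ → ℂ) (c : ℂ) (r : ℝ) : 0 ≤ om1 ψ c r := by
  rw [← om1_eq]
  exact measureReal_nonneg

theorem om1_le_one (ψ : ℂ → ℂ) (c : ℂ) (r : ℝ) : om1 ψ c r ≤ 1 := by
  rw [← om1_eq]
  exact measureReal_le_one

theorem nn_le (hd : 2 ≤ d) (N : ℕ) (c : ℂ) (r : ℝ) : nn d N c r ≤ (d:ℝ) ^ N := by
  rw [nn_eq hd]
  have h1 := (Finset.card_filter_le (ZZ d N) fun a => ‖c - a‖ < r).trans (ZZ_card hd N)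
  exact_mod_cast h1

theorem nn_nonneg (d N : ℕ) (c : ℂ) (r : ℝ) : 0 ≤ nn d N c r := by
  unfold nn
  positivity

/-- **The comparison with explicit dependence on the radius.** -/
theorem core (hd : 2 ≤ d) (hβ : IsBeta d β) (hψ : IsExteriorMap (multibrotSet d) ψ) (N : ℕ)
    (c : ℂ) {r ε : ℝ} (hr : 0 < r) (hε : 0 < ε) (hε1 : ε ≤ 1) {δ : ℝ} (hδ0 : 0 < δ) (hδ1 : δ ≤ 1)
    (hδ : δ ≤ ε * r / 3 / (2 * ((d:ℝ) ^ N + 1))) :
    nn d N c r ≤ (d:ℝ) ^ N * om1 ψ c ((1 + ε) * r) +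
      10 * (KI * ((N + 1 : ℕ) : ℝ) * Real.log d + 2 * Real.log (1 / δ)) / ε ∧
    (d:ℝ) ^ N * om1 ψ c r ≤ nn d N c ((1 + ε) * r) +
      10 * (KI * ((N + 1 : ℕ) : ℝ) * Real.log d + 2 * Real.log (1 / δ)) / ε := by
  classical
  have hd0 : (2:ℝ) ≤ d := by exact_mod_cast hd
  have hld : 0 < Real.log d := Real.log_pos (by linarith)
  obtain ⟨S, hS⟩ : ∃ S : Finset ℝ, S = (ZZ d N).image fun a => ‖c - a‖ := ⟨_, rfl⟩
  have hSc : S.card ≤ d ^ N := by
    rw [hS]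
    exact Finset.card_image_le.trans (ZZ_card hd N)
  have hεr : 0 < ε * r := by positivity
  obtain ⟨ρ, h1, h2, h3⟩ := good_radius S hSc (show r < (1 + ε / 3) * r by nlinarith)
  obtain ⟨ρ', h4, h5, h6⟩ := good_radius S hSc
    (show (1 + 2 * ε / 3) * r < (1 + ε) * r by nlinarith)
  have hcast : (((d ^ N : ℕ) : ℝ)) = (d:ℝ) ^ N := by push_cast; rfl
  rw [hcast] at h3 h6
  have hg : ∀ a ∈ ZZ d N, δ ≤ |ρ - ‖c - a‖| := by
    intro a ha
    refine hδ.trans (le_trans (le_of_eq ?_) (h3 ‖c - a‖ (by rw [hS]; exact Finset.mem_image_of_mem _ ha)))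
    congr 1
    ring
  have hg' : ∀ a ∈ ZZ d N, δ ≤ |ρ' - ‖c - a‖| := by
    intro a ha
    refine hδ.trans (le_trans (le_of_eq ?_) (h6 ‖c - a‖ (by rw [hS]; exact Finset.mem_image_of_mem _ ha)))
    congr 1
    ring
  have hρ : 0 < ρ := hr.trans h1
  have hρρ : ρ < ρ' := by nlinarith
  obtain ⟨hA1, hA2⟩ := two_radii hd hβ hψ N c hρ hρρ hδ0 hδ1 hg hg'
  obtain ⟨A, hA⟩ : ∃ A, A = Real.log (ρ' / ρ) := ⟨_, rfl⟩
  obtain ⟨E, hE⟩ : ∃ E, E = KI * ((N + 1 : ℕ) : ℝ) * Real.log d + 2 * Real.log (1 / δ) := ⟨_, rfl⟩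
  have hE0 : 0 ≤ E := by
    rw [hE]
    have hδl : 0 ≤ Real.log (1 / δ) := Real.log_nonneg (by rw [le_div_iff₀ hδ0]; linarith)
    have := KI_ge
    positivity
  have hB1 := count_le hd N c hρ h1.le hρρ.le
  have hB2 := le_count hd N c hρ hρρ.le h5.le
  rw [← hA] at hA1 hA2 hB1 hB2
  rw [← hE] at hA1 hA2 ⊢
  -- the lower bound of the logarithm
  have hAε : ε / 5 ≤ A := by
    have h7 : 1 + ε / 4 ≤ ρ' / ρ := by
      rw [le_div_iff₀ hρ]
      have : (1 + ε / 4) * ρ ≤ (1 + ε / 4) * ((1 + ε / 3) * r) := by gcongr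
      have h8 : (1 + ε / 4) * ((1 + ε / 3) * r) ≤ (1 + 2 * ε / 3) * r := by
        have : (1 + ε / 4) * (1 + ε / 3) ≤ 1 + 2 * ε / 3 := by nlinarith
        nlinarith
      linarith
    have h8 : 1 - (1 + ε / 4)⁻¹ ≤ Real.log (1 + ε / 4) :=
      Real.one_sub_inv_le_log_of_pos (by positivity)
    have h9 : ε / 5 ≤ 1 - (1 + ε / 4)⁻¹ := by
      have h10 : 1 - (1 + ε / 4)⁻¹ = (ε / 4) / (1 + ε / 4) := by
        field_simp
        ring
      rw [h10, le_div_iff₀ (by positivity)]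
      nlinarith
    rw [hA]
    exact h9.trans (h8.trans (Real.log_le_log (by positivity) h7))
  have hA0 : 0 < A := by linarith
  have hEA : 2 * E / A ≤ 10 * E / ε := by
    rw [div_le_div_iff₀ hA0 hε]
    nlinarith
  have hdN : (0:ℝ) < (d:ℝ) ^ N := by positivity
  constructor
  · have h7 : nn d N c r * A ≤ (d:ℝ) ^ N * (A * om1 ψ c ρ') + 2 * E := hB1.trans hA2
    have h8 : nn d N c r ≤ (d:ℝ) ^ N * om1 ψ c ρ' + 2 * E / A := by
      have e : (d:ℝ) ^ N * om1 ψ c ρ' + 2 * E / A = ((d:ℝ) ^ N * (A * om1 ψ c ρ') + 2 * E) / A := by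
        field_simp
      rw [e, le_div_iff₀ hA0]
      exact h7
    have h9 : (d:ℝ) ^ N * om1 ψ c ρ' ≤ (d:ℝ) ^ N * om1 ψ c ((1 + ε) * r) :=
      mul_le_mul_of_nonneg_left (om1_mono ψ c h5.le) hdN.le
    linarith
  · have h7 : (d:ℝ) ^ N * (A * om1 ψ c ρ) ≤ nn d N c ((1 + ε) * r) * A + 2 * E :=
      hA1.trans (by linarith)
    have h8 : (d:ℝ) ^ N * om1 ψ c ρ ≤ nn d N c ((1 + ε) * r) + 2 * E / A := by
      have e : nn d N c ((1 + ε) * r) + 2 * E / A = (nn d N c ((1 + ε) * r) * A + 2 * E) / A := by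
        field_simp
      rw [e, le_div_iff₀ hA0]
      calc (d:ℝ) ^ N * om1 ψ c ρ * A = (d:ℝ) ^ N * (A * om1 ψ c ρ) := by ring
        _ ≤ _ := h7
    have h9 : (d:ℝ) ^ N * om1 ψ c r ≤ (d:ℝ) ^ N * om1 ψ c ρ :=
      mul_le_mul_of_nonneg_left (om1_mono ψ c h1.le) hdN.le
    linarith

/-- the separation constant -/
noncomputable def Qs (d n : ℕ) : ℝ := 12 * (256 * d ^ 2 * Pool.Agent.R240.Trans.AA d) ^ n

theorem log_Qs (hd : 2 ≤ d) {n : ℕ} (hn : 1 ≤ n) : 1 ≤ Qs d n ∧ Real.log (Qs d n) ≤ 45 * (n * Real.log d) := by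
  have hd0 : (2:ℝ) ≤ d := by exact_mod_cast hd
  have hl2 : 0 < Real.log 2 := Real.log_pos (by norm_num)
  have hld : Real.log 2 ≤ Real.log d := Real.log_le_log (by norm_num) hd0
  have hn1 : (1:ℝ) ≤ n := by exact_mod_cast hn
  have hA := Pool.Agent.R240.Trans.AA_one hd
  have hAA : Real.log (Pool.Agent.R240.Trans.AA d) ≤ 31 * Real.log d := by
    unfold Pool.Agent.R240.Trans.AA
    rw [Real.log_mul (by norm_num) (by positivity), Real.log_pow]
    have h1 : Real.log 384000000 ≤ 29 * Real.log 2 := by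
      rw [show 29 * Real.log 2 = Real.log (2 ^ 29) by rw [Real.log_pow]; norm_num]
      exact Real.log_le_log (by norm_num) (by norm_num)
    push_cast
    linarith
  have h256 : Real.log 256 = 8 * Real.log 2 := by
    rw [show (256:ℝ) = 2 ^ 8 by norm_num, Real.log_pow]
    norm_num
  have h12 : Real.log 12 ≤ 4 * Real.log 2 := by
    rw [show 4 * Real.log 2 = Real.log (2 ^ 4) by rw [Real.log_pow]; norm_num]
    exact Real.log_le_log (by norm_num) (by norm_num)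
  obtain ⟨a, ha⟩ : ∃ a, a = Pool.Agent.R240.Trans.AA d := ⟨_, rfl⟩
  unfold Qs
  rw [← ha] at hA hAA ⊢
  have hb : 1 ≤ 256 * (d:ℝ) ^ 2 * a := by
    have : 1 ≤ (d:ℝ) ^ 2 := one_le_pow₀ (by linarith)
    nlinarith
  constructor
  · have := one_le_pow₀ (n := n) hb
    linarith
  · rw [Real.log_mul (by norm_num) (by positivity), Real.log_pow,
      Real.log_mul (by positivity) (by positivity), Real.log_mul (by norm_num) (by positivity),
      Real.log_pow, h256]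
    push_cast
    have h3 : (n:ℝ) * (8 * Real.log 2 + 2 * Real.log d + Real.log a) ≤ n * (41 * Real.log d) := by
      apply mul_le_mul_of_nonneg_left _ (by positivity)
      linarith
    have h4 : Real.log d ≤ n * Real.log d := by nlinarith
    linarith

/-- the constant -/
noncomputable def KL : ℝ := 10 * (KI + 110) + KK / Real.log 2 + 2 / Real.log 2

/-- **The local law.** -/
theorem law (hd : 2 ≤ d) (hψ : IsExteriorMap (multibrotSet d) ψ) (N : ℕ)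
    (c : ℂ) {r ε : ℝ} (hr : 0 < r) (hε : 0 < ε) (hε1 : ε ≤ 1) :
    nn d N c r ≤ (d:ℝ) ^ N * om1 ψ c ((1 + ε) * r) + KL * ((N + 1 : ℕ) : ℝ) * Real.log d / ε ∧
    (d:ℝ) ^ N * om1 ψ c r ≤ nn d N c ((1 + ε) * r) +
      KL * ((N + 1 : ℕ) : ℝ) * Real.log d / ε := by
  obtain ⟨β, hβ⟩ := exists_beta (d := d) hd
  have hd0 : (2:ℝ) ≤ d := by exact_mod_cast hd
  have hl2 : 0 < Real.log 2 := Real.log_pos (by norm_num)
  have hld : Real.log 2 ≤ Real.log d := Real.log_le_log (by norm_num) hd0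
  have hN1 : (1:ℝ) ≤ ((N + 1 : ℕ) : ℝ) := by push_cast; linarith [(N.cast_nonneg : (0:ℝ) ≤ N)]
  obtain ⟨L, hL⟩ : ∃ L, L = ((N + 1 : ℕ) : ℝ) * Real.log d := ⟨_, rfl⟩
  have hL2 : Real.log 2 ≤ L := by rw [hL]; nlinarith
  have hL0 : 0 < L := by linarith
  have eL : KL * ((N + 1 : ℕ) : ℝ) * Real.log d = KL * L := by rw [hL]; ring
  rw [eL]
  have hKI := KI_ge
  have hKK := KK_pos
  have hKL : KL * L = 10 * (KI + 110) * L + KK * (L / Real.log 2) + 2 * (L / Real.log 2) := by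
    unfold KL
    ring
  have hLl : 1 ≤ L / Real.log 2 := by rw [le_div_iff₀ hl2]; linarith
  have hKLL : 10 * (KI + 110) * L + KK + 2 ≤ KL * L := by
    rw [hKL]
    nlinarith
  have hKL0 : 0 < KL * L := by
    have : 0 ≤ 10 * (KI + 110) * L := by positivity
    linarith
  obtain ⟨D, hD⟩ : ∃ D : ℝ, D = (d:ℝ) ^ N := ⟨_, rfl⟩
  have hD1 : 1 ≤ D := by rw [hD]; exact one_le_pow₀ (by linarith)
  have hDl : Real.log D ≤ L := by
    rw [hD, Real.log_pow, hL]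
    push_cast
    nlinarith
  have hKε : KL * L ≤ KL * L / ε := by
    rw [le_div_iff₀ hε]
    nlinarith
  have hr2 : r ≤ (1 + ε) * r := by nlinarith
  -- the trivial case
  by_cases hcase : D * ε ≤ KL * L
  · have h1 : D ≤ KL * L / ε := by rw [le_div_iff₀ hε]; exact hcase
    constructor
    · have h2 := nn_le hd N c r
      have h3 : 0 ≤ (d:ℝ) ^ N * om1 ψ c ((1 + ε) * r) :=
        mul_nonneg (by positivity) (om1_nonneg _ _ _)
      rw [← hD] at h2 h3 ⊢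
      linarith
    · have h2 := nn_nonneg d N c ((1 + ε) * r)
      have h3 : (d:ℝ) ^ N * om1 ψ c r ≤ (d:ℝ) ^ N * 1 :=
        mul_le_mul_of_nonneg_left (om1_le_one _ _ _) (by positivity)
      rw [← hD] at h3 ⊢
      linarith
  push Not at hcase
  obtain ⟨hQ1, hQl⟩ := log_Qs hd (by omega : 1 ≤ N + 1)
  obtain ⟨Q, hQ⟩ : ∃ Q, Q = Qs d (N + 1) := ⟨_, rfl⟩
  have hsep : ∀ a b : ℂ, P d (N + 1) a = 0 → P d (N + 1) b = 0 → a ≠ b → 1 ≤ Q * ‖a - b‖ := by
    intro a b ha hb hab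
    have := Pool.Agent.R240.Trans.sepA hd (by omega : 1 ≤ N + 1) ha hb hab
    rw [hQ]
    exact this
  rw [← hQ] at hQ1 hQl
  have hQ0 : 0 < Q := by linarith
  by_cases hsmall : 4 * r * Q < 1
  · -- small discs
    have hone : ∀ t : ℝ, t ≤ 2 * r → (Cen d (N + 1) c t).ncard ≤ 1 := by
      intro t ht
      rw [Set.ncard_le_one (Cen_finite hd N c t)]
      intro a ha b hb
      by_contra hab
      have h1 := hsep a b ha.2 hb.2 hab
      have h2 := ha.1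
      have h3 := hb.1
      rw [mem_ball, dist_eq_norm] at h2 h3
      have h4 : a - b = (a - c) - (b - c) := by ring
      have h5 := norm_sub_le (a - c) (b - c)
      rw [← h4] at h5
      have h6 : ‖a - b‖ ≤ 4 * r := by linarith
      have h7 : Q * ‖a - b‖ ≤ Q * (4 * r) := by gcongr
      nlinarith
    constructor
    · have h1 : nn d N c r ≤ 1 := by
        unfold nn
        exact_mod_cast hone r (by linarith)
      have h3 : 0 ≤ (d:ℝ) ^ N * om1 ψ c ((1 + ε) * r) :=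
        mul_nonneg (by positivity) (om1_nonneg _ _ _)
      have : 0 ≤ 10 * (KI + 110) * L := by positivity
      linarith
    · have h1 := count_lower hd hψ N c (r := 2 * r) (by linarith)
      rw [show 2 * r / 2 = r by ring] at h1
      have h2 : ((Cen d (N + 1) c (2 * r)).ncard : ℝ) ≤ 1 := by exact_mod_cast hone _ le_rfl
      have hpi := Real.pi_gt_three
      have h3 : (d:ℝ) ^ N * om1 ψ c r ≤ KK := by
        unfold om1
        rw [← mul_div_assoc, div_le_iff₀ (by positivity)]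
        nlinarith
      have h4 := nn_nonneg d N c ((1 + ε) * r)
      have : 0 ≤ 10 * (KI + 110) * L := by positivity
      linarith
  · push Not at hsmall
    -- the main case
    obtain ⟨δ, hδ⟩ : ∃ δ : ℝ, δ = 1 / (48 * D ^ 2 * Q) := ⟨_, rfl⟩
    have hDD : 1 ≤ D ^ 2 := one_le_pow₀ hD1
    have hδ0 : 0 < δ := by rw [hδ]; positivity
    have hden : 1 ≤ 48 * D ^ 2 * Q := by nlinarith
    have hδ1 : δ ≤ 1 := by
      rw [hδ, div_le_one (by positivity)]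
      exact hden
    have hεD : 1 ≤ D * ε := by
      have : 0 ≤ 10 * (KI + 110) * L := by positivity
      linarith
    have hδr : δ ≤ ε * r / 3 / (2 * ((d:ℝ) ^ N + 1)) := by
      rw [← hD, hδ, div_div, div_le_div_iff₀ (by positivity) (by positivity)]
      have h1 : 3 * (2 * (D + 1)) ≤ 12 * D := by linarith
      have h2 : 1 ≤ (D * ε) * (4 * r * Q) := one_le_mul_of_one_le_of_one_le hεD hsmall
      calc 1 * (3 * (2 * (D + 1))) ≤ 12 * D * 1 := by linarith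
        _ ≤ 12 * D * ((D * ε) * (4 * r * Q)) := by gcongr
        _ = ε * r * (48 * D ^ 2 * Q) := by ring
    have hδl : Real.log (1 / δ) ≤ 55 * L := by
      rw [hδ, one_div_one_div, Real.log_mul (by positivity) (by positivity),
        Real.log_mul (by norm_num) (by positivity), Real.log_pow]
      have h48 : Real.log 48 ≤ 6 * Real.log 2 := by
        rw [show 6 * Real.log 2 = Real.log (2 ^ 6) by rw [Real.log_pow]; norm_num]
        exact Real.log_le_log (by norm_num) (by norm_num)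
      rw [← hL] at hQl
      push_cast
      linarith
    have hmain := core hd hβ hψ N c hr hε hε1 hδ0 hδ1 hδr
    have hE : 10 * (KI * ((N + 1 : ℕ) : ℝ) * Real.log d + 2 * Real.log (1 / δ)) / ε ≤
        KL * L / ε := by
      apply div_le_div_of_nonneg_right _ hε.le
      have e : KI * ((N + 1 : ℕ) : ℝ) * Real.log d = KI * L := by rw [hL]; ring
      rw [e]
      have : 10 * (KI * L + 2 * Real.log (1 / δ)) ≤ 10 * (KI + 110) * L := by linarith
      linarith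
    exact ⟨hmain.1.trans (by linarith), hmain.2.trans (by linarith)⟩

theorem KL_pos : 0 < KL := by
  have hl2 : 0 < Real.log 2 := Real.log_pos (by norm_num)
  have hKI := KI_ge
  have hKK := KK_pos
  unfold KL
  positivity

end Pool.Agent.N601.LL
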