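import Pool.Agent.N601.LL.Jen
import Pool.Agent.R240.Growth

set_option autoImplicit false

/-! # Pointwise comparison with the escape rate -/

namespace Pool.Agent.N601.LL

open Complex Metric Set Filter Topology MeasureTheory Pool.Agent.H712R2 Pool.Agent.H713R2
open N62a1eb23 Pool.Agent.R240 Pool.Agent.R240.Trans Pool.Agent.R240.Univ
open Real (posLog circleAverage)

variable {d N : ℕ}

theorem esc_ge (hd : 2 ≤ d) {z : ℂ} (hz : 2 ≤ ‖z‖) (k : ℕ) : ‖z‖ ≤ ‖P d (k + 1) z‖ := by
  induction k with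
  | zero => rw [zero_add, P_one hd]
  | succ k ih =>
    rw [P_succ]
    have h1 : ‖P d (k + 1) z ^ d‖ - ‖z‖ ≤ ‖P d (k + 1) z ^ d + z‖ := by
      have := norm_sub_le (P d (k + 1) z ^ d + z) z
      rw [add_sub_cancel_right] at this
      linarith
    rw [norm_pow] at h1
    have h2 : ‖z‖ ^ 2 ≤ ‖P d (k + 1) z‖ ^ d :=
      (pow_le_pow_left₀ (norm_nonneg z) ih 2).trans (pow_le_pow_right₀ (by linarith) hd)
    nlinarith

theorem zero_int (hd : 2 ≤ d) {a : ℂ} (h : P d (N + 1) a = 0) : a ∈ interior (multibrotSet d) := by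
  have h1 := Pool.Agent.H548R3.MB.att_of_centre hd (by omega : 1 ≤ N + 1) h
  exact Pool.Agent.R240.Alm.att_interior hd ⟨N + 1, 0, h1⟩

/-- the lower bound -/
noncomputable def mm (d N : ℕ) : ℝ := 1 / (4 * d * (15 * d) ^ N)

theorem mm_pos (hd : 2 ≤ d) (N : ℕ) : 0 < mm d N := by
  have hd0 : (2:ℝ) ≤ d := by exact_mod_cast hd
  unfold mm
  positivity

theorem mm_le_one (hd : 2 ≤ d) (N : ℕ) : mm d N ≤ 1 := by
  have hd0 : (2:ℝ) ≤ d := by exact_mod_cast hd
  unfold mm
  rw [div_le_one (by positivity)]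
  have : (1:ℝ) ≤ (15 * d) ^ N := one_le_pow₀ (by linarith)
  nlinarith

theorem low_frontier (hd : 2 ≤ d) {c : ℂ} (hc : c ∈ frontier (multibrotSet d)) (N : ℕ) :
    mm d N ≤ ‖P d (N + 1) c‖ := by
  rcases le_total 1 ‖P d (N + 1) c‖ with h | h
  · exact (mm_le_one hd N).trans h
  · have h1 := Pool.Agent.R240.Crit.low hd hc N
    refine h1.trans ?_
    have h2 : ‖P d (N + 1) c‖ ^ (d - 1) ≤ ‖P d (N + 1) c‖ ^ 1 :=
      pow_le_pow_of_le_one (norm_nonneg _) h (by omega)
    rwa [pow_one] at h2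

/-- **Lower bound outside the connectedness locus.** -/
theorem P_low_out (hd : 2 ≤ d) {z : ℂ} (hz : z ∉ multibrotSet d) (hz3 : ‖z‖ < 3) (N : ℕ) :
    mm d N ≤ ‖P d (N + 1) z‖ := by
  obtain ⟨U, hU⟩ : ∃ U : Set ℂ, U = ball 0 3 ∩ (multibrotSet d)ᶜ := ⟨_, rfl⟩
  have hMc : IsClosed (multibrotSet d) := (isCompact_multibrot hd).isClosed
  have hcl : closure U ⊆ closure (multibrotSet d)ᶜ := by
    rw [hU]
    exact closure_mono inter_subset_right
  have hne : ∀ x ∈ closure U, P d (N + 1) x ≠ 0 := by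
    intro x hx h
    have h1 := zero_int hd h
    have h2 := hcl hx
    rw [closure_compl] at h2
    exact h2 h1
  have hfr : ∀ x ∈ frontier U, mm d N ≤ ‖P d (N + 1) x‖ := by
    intro x hx
    have h1 : x ∈ frontier (ball (0:ℂ) 3) ∪ frontier (multibrotSet d) := by
      rw [hU] at hx
      have h2 := frontier_inter_subset _ _ hx
      rcases h2 with h2 | h2
      · exact Or.inl h2.1
      · right
        have := h2.2
        rwa [frontier_compl] at this
    rcases h1 with h1 | h1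
    · rw [frontier_ball _ (by norm_num), mem_sphere, dist_zero_right] at h1
      have h3 := esc_ge hd (z := x) (by linarith) N
      linarith [mm_le_one hd N]
    · exact low_frontier hd h1 N
  have hdf : DiffContOnCl ℂ (fun x => (P d (N + 1) x)⁻¹) U := by
    constructor
    · intro x hx
      exact ((differentiable_P d (N + 1) x).inv (hne x (subset_closure hx))).differentiableWithinAt
    · intro x hx
      exact ((continuous_P d (N + 1)).continuousAt.inv₀ (hne x hx)).continuousWithinAt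
  have hm := mm_pos hd N
  have hzU : z ∈ closure U := by
    apply subset_closure
    rw [hU]
    exact ⟨by rwa [mem_ball_zero_iff], hz⟩
  have hbd : Bornology.IsBounded U := by
    rw [hU]
    exact isBounded_ball.subset inter_subset_left
  have h1 := Complex.norm_le_of_forall_mem_frontier_norm_le hbd hdf (C := (mm d N)⁻¹) (fun x hx => by
    rw [norm_inv]
    exact inv_anti₀ hm (hfr x hx)) hzU
  rw [norm_inv] at h1
  have h2 : 0 < ‖P d (N + 1) z‖ := norm_pos_iff.2 (hne z hzU)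
  exact (inv_le_inv₀ h2 hm).1 h1

theorem log_mm (hd : 2 ≤ d) (N : ℕ) : -(8 * ((N + 1 : ℕ) : ℝ) * Real.log d) ≤ Real.log (mm d N) := by
  have hd0 : (2:ℝ) ≤ d := by exact_mod_cast hd
  have hl2 : 0 < Real.log 2 := Real.log_pos (by norm_num)
  have hld : Real.log 2 ≤ Real.log d := Real.log_le_log (by norm_num) hd0
  unfold mm
  rw [one_div, Real.log_inv, Real.log_mul (by positivity) (by positivity), Real.log_pow,
    Real.log_mul (by norm_num) (by positivity), Real.log_mul (by norm_num) (by positivity)]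
  have h4 : Real.log 4 = 2 * Real.log 2 := by
    rw [show (4:ℝ) = 2 ^ 2 by norm_num, Real.log_pow]
    norm_num
  have h15 : Real.log 15 ≤ 4 * Real.log 2 := by
    rw [show 4 * Real.log 2 = Real.log (2 ^ 4) by rw [Real.log_pow]; norm_num]
    exact Real.log_le_log (by norm_num) (by norm_num)
  rw [h4]
  push_cast
  have hN : (0:ℝ) ≤ N := N.cast_nonneg
  have h5 : (N:ℝ) * (Real.log 15 + Real.log d) ≤ N * (5 * Real.log d) := by
    apply mul_le_mul_of_nonneg_left _ hN
    linarith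
  nlinarith

/-- the comparison outside the connectedness locus -/
theorem out_M (hd : 2 ≤ d) {ψ : ℂ → ℂ} (hψ : IsExteriorMap (multibrotSet d) ψ) {w : ℂ}
    (hw : 1 < ‖w‖) (N : ℕ) :
    |Real.log ‖P d (N + 1) (ψ w)‖ - (d:ℝ) ^ N * Real.log ‖w‖| ≤
      10 * ((N + 1 : ℕ) : ℝ) * Real.log d := by
  have hd0 : (2:ℝ) ≤ d := by exact_mod_cast hd
  have hl2 : 0 < Real.log 2 := Real.log_pos (by norm_num)
  have hld : Real.log 2 ≤ Real.log d := Real.log_le_log (by norm_num) hd0
  have hN1 : (1:ℝ) ≤ ((N + 1 : ℕ) : ℝ) := by push_cast; linarith [(N.cast_nonneg : (0:ℝ) ≤ N)]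
  have hNl : Real.log d ≤ ((N + 1 : ℕ) : ℝ) * Real.log d := by nlinarith
  have hw0 : 0 < ‖w‖ := by linarith
  have hzM : ψ w ∉ multibrotSet d := by
    have h1 : ψ w ∈ ψ '' {z | 1 < ‖z‖} := mem_image_of_mem ψ hw
    rw [hψ.image] at h1
    exact h1
  have hne : 0 < ‖P d (N + 1) (ψ w)‖ := by
    rw [norm_pos_iff]
    intro h
    exact hzM (interior_subset (zero_int hd h))
  have hlw : (d:ℝ) ^ N * Real.log ‖w‖ = Real.log (‖w‖ ^ (d ^ N)) := by
    rw [Real.log_pow]
    push_cast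
    ring
  rw [abs_le]
  constructor
  · obtain ⟨p, hp⟩ : ∃ p, p = ‖P d (N + 1) (ψ w)‖ := ⟨_, rfl⟩
    rw [← hp] at hne ⊢
    by_cases h1 : 2 ≤ p ∧ ‖ψ w‖ ≤ p
    · have h2 := green_lower' hd hψ hw (R := p) h1.1 h1.2 (n := N) (by rw [hp])
      have h3 := Real.log_le_log (by positivity) h2
      have h4 : Real.log (p + 1) ≤ Real.log 2 + Real.log p := by
        rw [← Real.log_mul (by norm_num) hne.ne']
        apply Real.log_le_log (by linarith)
        linarith [h1.1]
      rw [hlw]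
      nlinarith
    · have h2 : ‖ψ w‖ < 2 := by
        by_contra hcon
        push Not at hcon
        have h3 := esc_ge hd hcon N
        rw [← hp] at h3
        exact h1 ⟨hcon.trans h3, h3⟩
      have h3 : p ≤ 2 := by
        by_contra hcon
        push Not at hcon
        exact h1 ⟨hcon.le, by linarith⟩
      have h4 := green_lower' hd hψ hw (R := 2) le_rfl h2.le (n := N) (by rw [← hp]; exact h3)
      have h5 := Real.log_le_log (by positivity) h4
      have h6 : Real.log (2 + 1) ≤ 2 * Real.log 2 := by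
        rw [show 2 * Real.log 2 = Real.log (2 ^ 2) by rw [Real.log_pow]; norm_num]
        exact Real.log_le_log (by norm_num) (by norm_num)
      have h7 := P_low_out hd hzM (by linarith) N
      rw [← hp] at h7
      have h8 := Real.log_le_log (mm_pos hd N) h7
      have h9 := log_mm hd N
      rw [hlw]
      nlinarith
  · have h1 := Pool.Agent.W677.MC.P_le_two hd hψ hw N
    have h2 := Real.log_le_log hne h1
    rw [Real.log_mul (by norm_num) (by positivity), ← hlw] at h2
    nlinarith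

/-- the constant inside -/
noncomputable def KI : ℝ := 136 + (2 * Real.log 2 + 2 * Real.log (16 * Pool.Agent.R240.KN + 2)) / Real.log 2

theorem KI_ge : 136 ≤ KI := by
  have hl2 : 0 < Real.log 2 := Real.log_pos (by norm_num)
  have hK := KN_pos
  have h1 : 0 ≤ Real.log (16 * Pool.Agent.R240.KN + 2) := Real.log_nonneg (by linarith)
  have : 0 ≤ (2 * Real.log 2 + 2 * Real.log (16 * Pool.Agent.R240.KN + 2)) / Real.log 2 := by
    positivity
  unfold KI
  linarith

theorem log_B (hd : 2 ≤ d) {n : ℕ} (hn : 1 ≤ n) :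
    2 * Real.log (2 * ((16 * Pool.Agent.R240.KN + 2) * (48 * Pool.Agent.R240.Trans.AA d ^ 2) ^ n)) ≤
      KI * n * Real.log d := by
  have hd0 : (2:ℝ) ≤ d := by exact_mod_cast hd
  have hl2 : 0 < Real.log 2 := Real.log_pos (by norm_num)
  have hld : Real.log 2 ≤ Real.log d := Real.log_le_log (by norm_num) hd0
  have hK := KN_pos
  have hA := AA_one hd
  have hn1 : (1:ℝ) ≤ n := by exact_mod_cast hn
  obtain ⟨q, hq⟩ : ∃ q, q = 16 * Pool.Agent.R240.KN + 2 := ⟨_, rfl⟩
  rw [← hq]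
  have hq0 : 2 < q := by rw [hq]; linarith
  have hlq : 0 ≤ Real.log q := Real.log_nonneg (by linarith)
  have h48 : Real.log 48 ≤ 6 * Real.log 2 := by
    rw [show 6 * Real.log 2 = Real.log (2 ^ 6) by rw [Real.log_pow]; norm_num]
    exact Real.log_le_log (by norm_num) (by norm_num)
  have hAA : Real.log (AA d) ≤ 31 * Real.log d := by
    unfold Pool.Agent.R240.Trans.AA
    rw [Real.log_mul (by norm_num) (by positivity), Real.log_pow]
    have h1 : Real.log 384000000 ≤ 29 * Real.log 2 := by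
      rw [show 29 * Real.log 2 = Real.log (2 ^ 29) by rw [Real.log_pow]; norm_num]
      exact Real.log_le_log (by norm_num) (by norm_num)
    push_cast
    linarith
  rw [Real.log_mul (by norm_num) (by positivity), Real.log_mul (by positivity) (by positivity),
    Real.log_pow, Real.log_mul (by norm_num) (by positivity), Real.log_pow]
  unfold KI
  rw [← hq]
  have e : (136 + (2 * Real.log 2 + 2 * Real.log q) / Real.log 2) * n * Real.log d =
      136 * (n * Real.log d) + (2 * Real.log 2 + 2 * Real.log q) * (n * (Real.log d / Real.log 2)) := by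
    ring
  rw [e]
  have h1 : 1 ≤ (n:ℝ) * (Real.log d / Real.log 2) := by
    have : 1 ≤ Real.log d / Real.log 2 := by rw [le_div_iff₀ hl2]; linarith
    nlinarith
  have h2 : (2 * Real.log 2 + 2 * Real.log q) * 1 ≤
      (2 * Real.log 2 + 2 * Real.log q) * (n * (Real.log d / Real.log 2)) :=
    mul_le_mul_of_nonneg_left h1 (by positivity)
  have h3 : (n:ℝ) * (Real.log 48 + (2:ℕ) * Real.log (AA d)) ≤ n * (68 * Real.log d) := by
    apply mul_le_mul_of_nonneg_left _ (by positivity)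
    push_cast
    linarith
  obtain ⟨T, hT⟩ : ∃ T, T = (n:ℝ) * (Real.log 48 + (2:ℕ) * Real.log (Pool.Agent.R240.Trans.AA d)) :=
    ⟨_, rfl⟩
  obtain ⟨W, hW⟩ : ∃ W, W = (n:ℝ) * (Real.log d / Real.log 2) := ⟨_, rfl⟩
  rw [← hT] at h3 ⊢
  rw [← hW] at h2 ⊢
  linarith

/-- the comparison inside the connectedness locus -/
theorem in_M (hd : 2 ≤ d) {z : ℂ} (hz : z ∈ multibrotSet d) (N : ℕ) {δ : ℝ} (hδ0 : 0 < δ)
    (hδ1 : δ ≤ 1) (h : ∀ a ∈ ZZ d N, δ ≤ ‖z - a‖) :
    |Real.log ‖P d (N + 1) z‖| ≤ KI * ((N + 1 : ℕ) : ℝ) * Real.log d + 2 * Real.log (1 / δ) := by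
  have hd0 : (2:ℝ) ≤ d := by exact_mod_cast hd
  have hl2 : 0 < Real.log 2 := Real.log_pos (by norm_num)
  have hld : Real.log 2 ≤ Real.log d := Real.log_le_log (by norm_num) hd0
  have hN1 : (1:ℝ) ≤ ((N + 1 : ℕ) : ℝ) := by push_cast; linarith [(N.cast_nonneg : (0:ℝ) ≤ N)]
  have hNl : Real.log d ≤ ((N + 1 : ℕ) : ℝ) * Real.log d := by nlinarith
  have hKI := KI_ge
  have hne : 0 < ‖P d (N + 1) z‖ := by
    rw [norm_pos_iff]
    intro h0
    have := h z ((mem_ZZ hd).2 h0)
    rw [sub_self, norm_zero] at this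
    linarith
  have hδl : 0 ≤ Real.log (1 / δ) := Real.log_nonneg (by rw [le_div_iff₀ hδ0]; linarith)
  have hup : Real.log ‖P d (N + 1) z‖ ≤ Real.log 2 :=
    Real.log_le_log hne ((mem_multibrot_iff hd z).1 hz (N + 1))
  obtain ⟨a, ha, h1⟩ := closing hd hz (by omega : 1 ≤ N + 1)
  have h2 := h a ((mem_ZZ hd).2 ha)
  rw [norm_sub_rev] at h2
  have h3 := log_B hd (by omega : 1 ≤ N + 1)
  obtain ⟨B, hB⟩ : ∃ B, B = (16 * Pool.Agent.R240.KN + 2) * (48 * Pool.Agent.R240.Trans.AA d ^ 2) ^ (N + 1) := ⟨_, rfl⟩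
  obtain ⟨x, hx⟩ : ∃ x, x = ‖P d (N + 1) z‖ := ⟨_, rfl⟩
  rw [← hB] at h1 h3
  rw [← hx] at h1 hne hup ⊢
  have hB0 : 0 < B := by
    rw [hB]
    have := KN_pos
    have := AA_one hd
    positivity
  have hKN : Real.log d ≤ KI * ((N + 1 : ℕ) : ℝ) * Real.log d := by nlinarith
  rw [abs_le]
  refine ⟨?_, by linarith⟩
  rcases le_total 1 x with hx1 | hx1
  · have := Real.log_nonneg hx1
    linarith
  · have h4 : δ ≤ B * (2 * √x) := by
      refine (h2.trans h1).trans ?_
      apply mul_le_mul_of_nonneg_left _ hB0.le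
      refine le_trans ?_ (xlog_le hne.le hx1)
      have : 0 ≤ |Real.log x| := abs_nonneg _
      nlinarith
    have h5 : δ ≤ 2 * B * √x := by linarith
    have h6 := Real.log_le_log hδ0 h5
    rw [Real.log_mul (by positivity) (Real.sqrt_pos.2 hne).ne', Real.log_sqrt hne.le] at h6
    rw [one_div, Real.log_inv]
    linarith

variable {β : ℂ → ℂ}

/-- the mean over the equipotentials -/
noncomputable def VV (β : ℂ → ℂ) (s : ℝ) (z : ℂ) : ℝ :=
  circleAverage (fun x => Real.log ‖β x - z * x‖) 0 s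

/-- **Pointwise comparison.** -/
theorem pt (hd : 2 ≤ d) (hβ : IsBeta d β) (N : ℕ) {z : ℂ} {δ : ℝ} (hδ0 : 0 < δ) (hδ1 : δ ≤ 1)
    (h : ∀ a ∈ ZZ d N, δ ≤ ‖z - a‖) {s : ℝ} (hs0 : 0 < s) (hs1 : s < 1) :
    |Real.log ‖P d (N + 1) z‖ - (d:ℝ) ^ N * VV β s z| ≤
      KI * ((N + 1 : ℕ) : ℝ) * Real.log d + 2 * Real.log (1 / δ) +
        (d:ℝ) ^ N * Real.log (1 / s) := by
  have hd0 : (2:ℝ) ≤ d := by exact_mod_cast hd
  have hl2 : 0 < Real.log 2 := Real.log_pos (by norm_num)
  have hld : Real.log 2 ≤ Real.log d := Real.log_le_log (by norm_num) hd0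
  have hdN : (0:ℝ) < (d:ℝ) ^ N := by positivity
  have hsl : 0 < Real.log (1 / s) := Real.log_pos (by rw [lt_div_iff₀ hs0]; linarith)
  have hδl : 0 ≤ Real.log (1 / δ) := Real.log_nonneg (by rw [le_div_iff₀ hδ0]; linarith)
  by_cases hz : z ∈ multibrotSet d
  · have h1 := in_M hd hz N hδ0 hδ1 h
    unfold VV
    rw [Pool.Agent.Y736.HD.avg_mem hβ hz hs0 hs1, mul_zero, sub_zero]
    have : 0 ≤ (d:ℝ) ^ N * Real.log (1 / s) := by positivity
    linarith
  · have hψ := exteriorMap_of_beta hβ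
    have h1 : z ∈ (multibrotSet d)ᶜ := hz
    rw [← hψ.image] at h1
    obtain ⟨w, hw, hwz⟩ := h1
    have hw' : 1 < ‖w‖ := hw
    have h2 := out_M hd hψ hw' N
    have hwz' : w * β w⁻¹ = z := hwz
    have h4 := Pool.Agent.Y736.HD.avg_ext hβ hw' hs0 hs1
    rw [hwz'] at h4
    rw [hwz'] at h2
    unfold VV
    rw [h4]
    have hw0 : 0 < ‖w‖ := by linarith
    have h5 : |posLog (s * ‖w‖) - Real.log ‖w‖| ≤ Real.log (1 / s) := by
      rw [one_div, Real.log_inv]
      have h6 : Real.log (s * ‖w‖) = Real.log s + Real.log ‖w‖ :=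
        Real.log_mul hs0.ne' hw0.ne'
      have h7 : 0 < Real.log ‖w‖ := Real.log_pos hw'
      have h8 : Real.log s < 0 := Real.log_neg hs0 hs1
      have hp : posLog (s * ‖w‖) = max 0 (Real.log (s * ‖w‖)) := rfl
      rw [hp, h6, abs_le]
      constructor
      · have := le_max_right 0 (Real.log s + Real.log ‖w‖)
        linarith
      · have := max_le (show 0 ≤ Real.log ‖w‖ + -Real.log s by linarith)
          (show Real.log s + Real.log ‖w‖ ≤ Real.log ‖w‖ + -Real.log s by linarith)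
        linarith
    have h6 : Real.log ‖P d (N + 1) z‖ - (d:ℝ) ^ N * posLog (s * ‖w‖) =
        (Real.log ‖P d (N + 1) z‖ - (d:ℝ) ^ N * Real.log ‖w‖) -
          (d:ℝ) ^ N * (posLog (s * ‖w‖) - Real.log ‖w‖) := by ring
    rw [h6]
    refine (abs_sub _ _).trans ?_
    rw [abs_mul, abs_of_pos hdN]
    have h7 : (d:ℝ) ^ N * |posLog (s * ‖w‖) - Real.log ‖w‖| ≤ (d:ℝ) ^ N * Real.log (1 / s) :=
      mul_le_mul_of_nonneg_left h5 hdN.le
    have h8 : 10 * ((N + 1 : ℕ) : ℝ) * Real.log d ≤ KI * ((N + 1 : ℕ) : ℝ) * Real.log d := by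
      have := KI_ge
      have h9 : 0 ≤ ((N + 1 : ℕ) : ℝ) * Real.log d := by positivity
      nlinarith
    linarith

end Pool.Agent.N601.LL
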